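import Pool.Agent.TH766.IQ.Lc

/-!
# Nonvanishing for log canonical pairs on iterated quotients

Let `Y` be a member of the class `IsTowerN` of projective varieties over `ℂ` (given by their function
fields), with Kodaira dimension `a`. This is the smallest class which contains the point, the
varieties of general type (for instance the irreducible components, if not ruled, of the projective
varieties given by nested sums of high powers of linear forms or of monomials), the abelian covers of
products of projective spaces over arrangements of hyperplanes (none reducible, otherwise arbitrary)
with multiplicities at least `n i + 2`, and which contains with `Y` all quotients `(Y × ∏ C j) / G`,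
for curves `C j` (not rational) and finite groups `G` acting on the product and permuting the curves,
such that `MixedPos` holds, for instance such that the fixed locus of each `g ≠ 1` on the product of
the curves is empty or of codimension at least `7`.

Let `X` be a projective manifold birational to a quotient `(Y × ∏ C j) / G` with `LogMixedPos` (for
instance, such that the fixed loci on the product of the curves are as above), `D` a reduced divisor
with normal crossings over finitely many points of the quotients of the curves (`D = 0` is allowed),
and `Δ ≥ 0` an `ℝ`-divisor on `X` which is at most the pull-back of a divisor from the quotient of the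
product of those curves which are hyperbolic outside of `D`. If `K_X + D + Δ` is pseudo-effective, for
instance nef, then a multiple of it is effective, and

  `κ (K_X + D + Δ) = ν (K_X + D + Δ) = a + (number of these curves)`.

In particular, weak nonvanishing holds for the log canonical pairs `(X, D + Δ)`.

The result combines the theorem on the covers (`Pool.Agent.TH756.PN`, helper756) with the one on pairs
on quotients of products of a variety and open curves (`Pool.Agent.TH194.LP`, helper194), where
`κ = ν` is an assumption on the variety, and with a proof that the numerical dimension of a variety is
at most its dimension (`Pool.Agent.TH766.NT`). That the components mentioned above are of general type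
is a theorem of helper710 (`Pool.Agent.TH710.ND`, see `Pool.Agent.TH766.IQ.nestedN`).
-/

set_option autoImplicit false
set_option linter.overlappingInstances false

open FF IntermediateField Pool.Agent.W619.PQ Pool.Agent.W619.PL Pool.Agent.W619.TW
open Pool.Agent.W619.X Pool.Agent.W619.Y Pool.Agent.TH194.LP Pool.Agent.TH766.IQ

namespace Pool.Agent.Results.MP_66b48b_ag.IteratedQuotientPairs

/-- **Pairs on iterated quotients.** Let `Y` be a member of the class of iterated quotients with
function field `M`, dimension `d` and Kodaira dimension `a`, `F j` (`j < s`) the function fields of
curves `C j`, `L` the function field of the product of `Y` and the curves, `G` a finite group of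
automorphisms of `L` which permutes the curves through `σ` (`IsProductAction`), and `B j` a finite set
of points of the quotient of `C j` by its stabilizer, such that the `B j` are permuted by `G`. Let
`(X, D + Δ)` be a pair, `X` a projective manifold birational to the quotient by `G`, `D` a reduced
divisor with normal crossings such that the divisors over `D` are those over a point of some `B j`,
and `Δ` an effective `ℝ`-divisor with multiplicity `δ v` along the divisor `v`. Let `P` be the set of
the indices of the curves such that `C j` minus the preimage of `B j` is hyperbolic (not the projective
line, the affine line, the projective line minus two points or an elliptic curve), and assume that `Δ`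
is at most the pull-back of a divisor from the quotient of the product of the curves in `P`. Assume
`LogMixedPos`. If `K_X + D + Δ` is pseudo-effective, then a positive multiple of it is effective, and
`κ (K_X + D + Δ) = ν (K_X + D + Δ) = a + |P|`. -/
theorem result (d s a : ℕ) (L : Type) [Field L] [Algebra ℂ L] (M : IntermediateField ℂ L)
    (hM : IsTowerN M d a) (F : Fin s → IntermediateField ℂ L)
    (G : Subgroup (L ≃ₐ[ℂ] L)) [Finite G] (σ : G →* Equiv.Perm (Fin s))
    (hG : IsProductAction d s M F G σ)
    (B : ∀ j, Set (Place ℂ ↥(F j ⊓ fixedField (stb G σ j)))) (hB : ∀ j, (B j).Finite)
    (hinv : BdInv G σ F B) (h : LogMixedPos G σ F B)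
    (δ : Place ℂ (fixedField G) → ℝ) (hδ : ∀ v, 0 ≤ δ v) (P : Set (Fin s))
    (hP : ∀ j, j ∈ P ↔ ¬ IsNegative (inf_le_left : F j ⊓ fixedField (stb G σ j) ≤ F j) (B j) ∧
      ¬ IsFlat (inf_le_left : F j ⊓ fixedField (stb G σ j) ≤ F j) (B j))
    (hδP : BoundedByR (⨆ j : P, F j) (d + s) δ)
    (hpe : LPPsef ℂ (fixedField G) (d + s) (BdQ G σ F B) δ) :
    (∃ m : ℕ, 1 ≤ m ∧ ∃ ω : (Fin (d + s) → Derivation ℂ (fixedField G) (fixedField G)) →
        fixedField G,
      IsLPSec ℂ (fixedField G) (d + s) (BdQ G σ F B) δ {1} m 0 ω ∧ ∃ D, ω D ≠ 0) ∧
      (∀ b, LPKodGe ℂ (fixedField G) (d + s) (BdQ G σ F B) δ b ↔ b ≤ a + P.ncard) ∧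
      ∀ b, LPNumLe ℂ (fixedField G) (d + s) (BdQ G σ F B) δ b ↔ a + P.ncard ≤ b :=
  lc_pairsN M hM F G σ hG B hB hinv h δ hδ P hP hδP hpe

end Pool.Agent.Results.MP_66b48b_ag.IteratedQuotientPairs
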