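import Pool.Agent.TH194.LP.Main

/-! Weak nonvanishing for log canonical pairs, with real boundaries, on quotients of products of a
variety and open curves. -/

set_option autoImplicit false
set_option linter.overlappingInstances false

universe u

open FF IntermediateField Pool.Agent.W619.PQ Pool.Agent.W619.PL Pool.Agent.W619.TW
  Pool.Agent.W619.X Pool.Agent.W619.Y Pool.Agent.TH194.LP

namespace Pool.Agent.Results.MP_66b48b_ag.MixedOpenPairs

/-- Let `Y` be a projective variety of dimension `d` with function field `M` (for instance a
point) and Kodaira dimension at least `0`, `F i` (`i < n`) the function fields of curves `C i`, `Z`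
the product of `Y` and the curves, with function field `L` (`hsup`), `G` a finite group of
automorphisms of `L` which permutes the curves through `σ`, and `B i` a finite set of points of the
quotient of `C i` by its stabilizer, such that the `B i` are permuted by `G`. Let `(X, D + Δ)` be a
pair, `X` a projective manifold birational to `Z / G`, `D` a reduced divisor with normal crossings
such that the divisors over `D` are those over a point of some `B i`, and `Δ` an effective
`ℝ`-divisor with multiplicity `δ v` along the divisor `v`. Let `P` be a set of indices of curves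
such that `C i` minus the preimage of `B i` is not the projective line or the affine line, and
assume that `Δ` is at most the pull-back of a divisor from the quotient of the product of the curves
in `P`. Assume `LogMixedNonneg`, for instance that the fixed locus of each `g ≠ 1` in `G` on the
product of the curves is empty or of codimension at least `6`. Then `K_X + D + Δ` is
pseudo-effective if and only if a positive multiple of it is effective, and if and only if none of
the open curves `C i` minus the preimage of `B i` is the projective line or the affine line. -/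
theorem result {L : Type u} [Field L] [Algebra ℂ L] (d n : ℕ)
    (hn : Algebra.trdeg ℂ L = (d + n : ℕ))
    (M : IntermediateField ℂ L) [Algebra.EssFiniteType ℂ M] (hM : Algebra.trdeg ℂ M = d)
    (hY : IsEff ℂ M d (fun _ => False))
    (F : Fin n → IntermediateField ℂ L) (hF : ∀ i, IsFF ℂ (F i))
    (hsup : M ⊔ (⨆ i, F i) = ⊤)
    (G : Subgroup (L ≃ₐ[ℂ] L)) [Finite G] (σ : G →* Equiv.Perm (Fin n))
    (hσ : ∀ (g : G) i, ∀ z ∈ F i, (g : L ≃ₐ[ℂ] L) z ∈ F (σ g i))
    (B : ∀ i, Set (Place ℂ ↥(F i ⊓ fixedField (stb G σ i)))) (hB : ∀ i, (B i).Finite)
    (hinv : BdInv G σ F B) (h : LogMixedNonneg G σ F B)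
    (δ : Place ℂ (fixedField G) → ℝ) (hδ : ∀ v, 0 ≤ δ v) (P : Set (Fin n))
    (hP : ∀ i ∈ P, ¬ IsNegative (inf_le_left : F i ⊓ fixedField (stb G σ i) ≤ F i) (B i))
    (hδP : BoundedByR (⨆ i : P, F i) (d + n) δ) :
    (LPPsef ℂ (fixedField G) (d + n) (BdQ G σ F B) δ ↔
      LPEff ℂ (fixedField G) (d + n) (BdQ G σ F B) δ) ∧
    (LPEff ℂ (fixedField G) (d + n) (BdQ G σ F B) δ ↔
      ∀ i, ¬ IsNegative (inf_le_left : F i ⊓ fixedField (stb G σ i) ≤ F i) (B i)) :=
  lp_nv d n hn M hM F hsup G σ hσ B hB hinv h δ hδ P hP hδP hY

end Pool.Agent.Results.MP_66b48b_ag.MixedOpenPairs
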