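import Pool.Agent.TH210.MP.Non

/-!
# Nonvanishing for pairs over the product of a pair and projective spaces with arrangements

For `i < r` let `ℓ i k = 0`, `k < q i`, be hyperplanes in projective `n i`-space, an arbitrary
arrangement which is not reducible (general position is not assumed), and let `(Z, Δ_Z)` be an
arbitrary pair. Let `X` be a normal projective variety with a generically finite rational map to the
product of `Z` and the projective spaces, and let `Δ ≥ 0` be an `ℝ`-divisor on `X` with coefficients
`δ P`, for instance the boundary of an lc pair. At a prime divisor `P` of `X` let `v i k` be the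
multiplicity of the hyperplane `ℓ i k`; if `P` does not dominate `Z`, let `ε` be its ramification
index over the prime divisor `w` over `Z`, and `δZ w` the coefficient of `Δ_Z` at `w` (minus the
discrepancy of `w` if `w` is exceptional over `Z`). Let

  `1 - δ P ≤ ∑ i, max_k (v i k) / d i`

for all prime divisors `P` of `X` which dominate `Z` and whose image lies in the arrangements, where
`d i = n i + 2` (or `d i = n i + 1` if the hyperplanes are not `n i + 2` hyperplanes in general
position). Then

**(1)** if some multiple of `K_Z` has a section, then some multiple of `K_X + Δ` has a section; more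
precisely, `κ(K_X + Δ) ≥ κ(Z)`;

**(2)** if some multiple of `K_Z + Δ_Z` has a section, and

  `1 - δ P ≤ ε (1 - δZ w) + ∑ i, max_k (v i k) / d i`

for all prime divisors `P` of `X` which do not dominate `Z`, then some multiple of `K_X + Δ` has a
section; more precisely, `κ(K_X + Δ) ≥ κ(K_Z + Δ_Z)`;

**(3)** if `Z` is a point, then some multiple of `K_X + Δ` has a section.

So the problem's question has a positive answer for these pairs: `K_X + Δ` is even `ℝ`-linearly
equivalent to an effective divisor. The inequalities are not strict, and `K_X + Δ` need not be big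
over `Z`; for instance, if `X` is the projective `n`-space and `Δ` is the sum of `n + 2` hyperplanes
in general position with the coefficients `1 - 1 / (n + 2)`, then `K_X + Δ` is `ℚ`-linearly trivial.

The function-field language of the starting repository is used. `K` and `F` are the function fields
of `X` and `Z`; `[x i 0 : ... : x i (n i)]` is the map to the `i`-th projective space; the prime
divisors of `X` are places `P` of `K` (`Place`, `Divisorial`), `P.ord` is the order along `P`, and
`X` is given by the set of its prime divisors. A section of `M (K_X + Δ)` is an `M`-canonical form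
`ω` (`IsPluri`), a function of `N` rational vector fields, `N` the dimension of `X`, whose value on
vector fields which are regular at `P` (`DerReg`) has order at least `- M δ P`, for all prime
divisors `P` of `X`. `Over P w ε` says that the prime divisor `P` lies over the place `w` of `F` with
ramification index `ε`.
-/

set_option autoImplicit false

open FF Module Pool.Agent.W602.Cov Pool.Agent.W602.GT

namespace Pool.Agent.Results.MP_66b48b_ag.NonvanishingOverPairs

/-- In suitable linear coordinates `X 0, ..., X n` each of the hyperplanes is one of `X j = 0` or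
`X 0 + ... + X n = 0`. The arrangements with this property which are not reducible are, up to
repetitions, the arrangements of `n + 2` hyperplanes in general position. -/
def Simplicial {n q : ℕ} (ℓ : Fin q → Form n) : Prop :=
  ∃ X : Basis (Fin (n + 1)) ℂ (Form n), ∀ i,
    (∃ c : ℂ, ℓ i = c • ∑ j, X j) ∨ ∃ (j : Fin (n + 1)) (c : ℂ), ℓ i = c • X j

/-- The bound for one arrangement in projective `n`-space: `n + 2`, and even `n + 1` if the
arrangement does not consist of `n + 2` hyperplanes in general position. -/
def Bound {n q : ℕ} (ℓ : Fin q → Form n) (d : ℕ) : Prop :=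
  d = n + 2 ∨ (d = n + 1 ∧ ¬ Simplicial ℓ)

/-- The value of a linear form at a vector over `K`. -/
noncomputable def form {n : ℕ} {K : Type} [Field K] [Algebra ℂ K] (φ : Form n)
    (x : Fin (n + 1) → K) : K := ∑ j, algebraMap ℂ K (φ (Pi.single j 1)) * x j

/-- `v i k` is the multiplicity of the hyperplane `ℓ i k` at the prime divisor `P`: the order of
the form `ℓ i k` is `a i + v i k`, where `a i` is the minimum of the orders of all linear forms on
the `i`-th projective space. -/
def Multiplicities {r : ℕ} {n q : Fin r → ℕ} (ℓ : ∀ i, Fin (q i) → Form (n i)) {K : Type}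
    [Field K] [Algebra ℂ K] (x : ∀ i, Fin (n i + 1) → K) (P : Place ℂ K)
    (v : ∀ i, Fin (q i) → ℕ) : Prop :=
  ∃ a : Fin r → ℤ, (∀ i (φ : Form (n i)), form φ (x i) = 0 ∨ a i ≤ P.ord (form φ (x i))) ∧
    (∀ i, ∃ φ : Form (n i), form φ (x i) ≠ 0 ∧ P.ord (form φ (x i)) = a i) ∧
    ∀ i k, P.ord (form (ℓ i k) (x i)) = a i + v i k

/-- The sum of the maximal multiplicities divided by the bounds is at least `c`. -/
def SumGe {r : ℕ} {q : Fin r → ℕ} (d : Fin r → ℕ) (v : ∀ i, Fin (q i) → ℕ) (c : ℝ) : Prop :=
  ∃ k : ∀ i, Fin (q i), c ≤ ∑ i, (v i (k i) : ℝ) / d i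

/-- `ω` is a section of `M (K_X + Δ)`, where `X` is a variety of dimension `N`, given by the set of
its prime divisors, and `Δ` has the coefficient `δ P` at `P`: an `M`-canonical form whose values on
vector fields which are regular at `P` have order at least `- M δ P`, for all prime divisors `P`
of `X`. -/
def IsSection {K : Type} [Field K] [Algebra ℂ K] (N : ℕ) (X : Set (Place ℂ K))
    (δ : Place ℂ K → ℝ) (M : ℕ) (ω : (Fin N → Derivation ℂ K K) → K) : Prop :=
  IsPluri M ω ∧ ∀ P ∈ X, Divisorial N P → ∀ D : Fin N → Derivation ℂ K K,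
    (∀ i, DerReg P (D i)) → ω D = 0 ∨ -(M * δ P) ≤ (P.ord (ω D) : ℝ)

/-- The Kodaira dimension of `K_X + Δ` is at least `h`: some positive multiple has sections whose
ratios contain `h` algebraically independent functions. For `h = 0` this says that some positive
multiple of `K_X + Δ` has a nonzero section. -/
def KodairaGe (K : Type) [Field K] [Algebra ℂ K] (N : ℕ) (X : Set (Place ℂ K))
    (δ : Place ℂ K → ℝ) (h : ℕ) : Prop :=
  ∃ M : ℕ, 0 < M ∧ ∃ ω : Fin (h + 1) → (Fin N → Derivation ℂ K K) → K,
    (∀ j, IsSection N X δ M (ω j)) ∧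
    ∃ D, ω 0 D ≠ 0 ∧ AlgebraicIndependent ℂ (fun i : Fin h => ω i.succ D / ω 0 D)

/-- Some positive multiple of `K_X + Δ` has a nonzero section. -/
def IsEffective (K : Type) [Field K] [Algebra ℂ K] (N : ℕ) (X : Set (Place ℂ K))
    (δ : Place ℂ K → ℝ) : Prop :=
  ∃ M : ℕ, 0 < M ∧ ∃ ω : (Fin N → Derivation ℂ K K) → K, IsSection N X δ M ω ∧ ω ≠ 0

/-- The prime divisor `P` dominates `Z`, the variety with the function field `F`. -/
def Dominates (F : Type) [Field F] {K : Type} [Field K] [Algebra ℂ K] [Algebra F K]
    (P : Place ℂ K) : Prop := ∀ g : F, P.ord (algebraMap F K g) = 0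

theorem eff_iff (K : Type) [Field K] [Algebra ℂ K] (N : ℕ) (X : Set (Place ℂ K))
    (δ : Place ℂ K → ℝ) : KodairaGe K N X δ 0 ↔ IsEffective K N X δ := by
  constructor
  · rintro ⟨M, hM, ω, hω, D, hD, -⟩
    exact ⟨M, hM, ω 0, hω 0, fun h => hD (by rw [h]; rfl)⟩
  · rintro ⟨M, hM, ω, hω, h0⟩
    obtain ⟨D, hD⟩ : ∃ D, ω D ≠ 0 := by
      by_contra hcon
      push Not at hcon
      exact h0 (funext hcon)
    exact ⟨M, hM, fun _ => ω, fun _ => hω, D, hD, algebraicIndependent_empty_type⟩

/-- Let `X` be a variety with function field `K` and a generically finite rational map, given by the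
`x i`, to the product of `Z` (with function field `F` and dimension `m`) and `r` projective spaces,
with arrangements which are not reducible, `N = m + ∑ i, n i` the dimension of `X`, and `Δ ≥ 0` a
real divisor on `X` with the coefficients `δ P`, and let the multiplicities at the prime divisors of
`X` which dominate `Z` and lie over the arrangements be large. Then

**(1)** if a multiple of `K_Z` has a section, then a multiple of `K_X + Δ` has a section, and if the
Kodaira dimension of `Z` is at least `h`, then so is the Kodaira dimension of `K_X + Δ`;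

**(2)** the same is true for `K_Z + Δ_Z`, if also the multiplicities at the prime divisors which do
not dominate `Z` are large. Here `Δ_Z` is given by its coefficients `δZ w` at all prime divisors `w`
over `Z` (the coefficient is minus the discrepancy of `w` with respect to `(Z, Δ_Z)`);

**(3)** if `Z` is a point, then a multiple of `K_X + Δ` has a section. -/
theorem result (r m N : ℕ) (n q : Fin r → ℕ) (hn : ∀ i, 1 ≤ n i) (hN : N = m + ∑ i, n i)
    (ℓ : ∀ i, Fin (q i) → Form (n i)) (hℓ : ∀ i k, ℓ i k ≠ 0) (hr : ∀ i, ¬ Reducible (ℓ i))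
    (d : Fin r → ℕ) (hd : ∀ i, Bound (ℓ i) (d i)) (F K : Type) [Field F] [Field K]
    [Algebra ℂ F] [Algebra ℂ K] [Algebra F K] [IsScalarTower ℂ F K] [Algebra.EssFiniteType ℂ F]
    (hm : Algebra.trdeg ℂ F = m) (x : ∀ i, Fin (n i + 1) → K) (hx0 : ∀ i, x i 0 ≠ 0)
    (hbas : IsTranscendenceBasis F
      (fun a : (i : Fin r) × Fin (n i) => x a.1 a.2.succ / x a.1 0))
    (X : Set (Place ℂ K)) (δ : Place ℂ K → ℝ) (hδ : ∀ P ∈ X, 0 ≤ δ P)
    (h : ∀ P ∈ X, Divisorial N P → Dominates F P → ∀ v, Multiplicities ℓ x P v →
      (∃ i, v i ≠ 0) → SumGe d v (1 - δ P)) :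
    ((IsEffective F m Set.univ (fun _ => 0) → IsEffective K N X δ) ∧
      ∀ h : ℕ, KodairaGe F m Set.univ (fun _ => 0) h → KodairaGe K N X δ h) ∧
    (∀ δZ : Place ℂ F → ℝ, (∀ P ∈ X, Divisorial N P → ∀ (w : Place ℂ F) (ε : ℕ), Over P w ε →
      ∀ v, Multiplicities ℓ x P v → SumGe d v (1 - δ P - ε * (1 - δZ w))) →
      (IsEffective F m Set.univ δZ → IsEffective K N X δ) ∧
      ∀ h : ℕ, KodairaGe F m Set.univ δZ h → KodairaGe K N X δ h) ∧
    (m = 0 → IsEffective K N X δ) := by
  subst hN
  have hH : Pool.Agent.TH210.MP.HorC (n := Fin.cons (α := fun _ => ℕ) m n) F (m + ∑ i, n i) ℓ x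
      X δ d 1 := fun P hPX hPd hdom a v hv hv0 => by
    obtain ⟨k, hk⟩ := h P hPX hPd hdom v ⟨a, hv.1, hv.2.1, hv.2.2⟩ hv0
    exact ⟨k, by rw [one_mul]; exact hk⟩
  have h1 : ∀ h : ℕ, KodairaGe F m Set.univ (fun _ => 0) h →
      KodairaGe K (m + ∑ i, n i) X δ h := fun k hk =>
    Pool.Agent.TH210.MP.non_final hn hℓ hr hd hm hx0 hbas X δ hδ hH (fun _ => 0)
      (Pool.Agent.TH210.MP.ver_zero' hn hr X δ hδ _) hk
  have h0 : IsEffective F m Set.univ (fun _ => 0) → IsEffective K (m + ∑ i, n i) X δ :=
    fun h' => (eff_iff _ _ _ _).1 (h1 0 ((eff_iff _ _ _ _).2 h'))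
  refine ⟨⟨h0, h1⟩, fun δZ hV => ?_, fun hm0 => h0 ?_⟩
  · have h2 : ∀ h : ℕ, KodairaGe F m Set.univ δZ h → KodairaGe K (m + ∑ i, n i) X δ h :=
      fun k hk => by
        refine Pool.Agent.TH210.MP.non_final hn hℓ hr hd hm hx0 hbas X δ hδ hH δZ
          (fun P hPX hPd w ε hov a v hv => ?_) hk
        obtain ⟨k, hk⟩ := hV P hPX hPd w ε hov v ⟨a, hv.1, hv.2.1, hv.2.2⟩
        exact ⟨k, by linarith⟩
    exact ⟨fun h' => (eff_iff _ _ _ _).1 (h2 0 ((eff_iff _ _ _ _).2 h')), h2⟩
  · subst hm0
    refine ⟨1, one_pos, fun _ => 1, ⟨fun A D => ?_, fun P _ _ D _ => Or.inr ?_⟩, ?_⟩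
    · simp
    · rw [P.ord_one]
      simp
    · intro h'
      exact one_ne_zero (congrFun h' finZeroElim)

end Pool.Agent.Results.MP_66b48b_ag.NonvanishingOverPairs
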